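import Mathlib
import Pool.Agent.Helper85.ProP.TopStmts

/-! Packet G: existence of good elements. -/

set_option autoImplicit false
set_option linter.unusedSectionVars false

namespace Pool.Agent.Helper22.ProP

open Pool.Agent.Helper85.ProP
open IsLocalRing

/-! ### Commutative algebra -/

/-- Krull: nothing lies strictly between `P` and a minimal prime over `P + (y)`. -/
theorem krull_between {R : Type} [CommRing R] [IsNoetherianRing R] {P P' Q : Ideal R}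
    (hP : P.IsPrime) (hP' : P'.IsPrime) (y : R) (hQ : Q ∈ (P ⊔ Ideal.span {y}).minimalPrimes)
    (h1 : P < P') (h2 : P' ≤ Q) : P' = Q := by
  by_contra hne
  have hlt : P' < Q := lt_of_le_of_ne h2 hne
  have e : Ideal.span (insert y (P : Set R)) = P ⊔ Ideal.span {y} := by
    rw [Ideal.span_insert, Ideal.span_eq, sup_comm]
  have h3 := Ideal.mem_minimalPrimes_span_of_mem_minimalPrimes_span_insert (q := P') (p := Q)
    hlt y (P : Set R) (by rw [e]; exact hQ) (P : Set R) h1.le (by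
      refine fun a ha => Ideal.le_radical (Ideal.subset_span (Set.mem_insert_of_mem _ ha)))
  rw [Ideal.span_eq] at h3
  exact absurd (h3.2 ⟨hP, le_refl P⟩ h1.le) (not_le_of_gt h1)

/-- Cayley-Hamilton: support of `M / I M`. -/
theorem supp_mem {R : Type} [CommRing R] {M : Type*} [AddCommGroup M] [Module R M]
    [Module.Finite R M] {I Q : Ideal R} (hQ : Q.IsPrime) (hA : Module.annihilator R M ≤ Q)
    (hI : I ≤ Q) {r : R} (hr : ∀ m : M, r • m ∈ I • (⊤ : Submodule R M)) : r ∈ Q := by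
  let f : Module.End R M := r • (1 : Module.End R M)
  have hf : LinearMap.range f ≤ I • (⊤ : Submodule R M) := by
    rintro _ ⟨m, rfl⟩
    exact hr m
  obtain ⟨q, hq1, -, hq2, hq3⟩ :=
    LinearMap.exists_monic_and_natDegree_eq_and_coeff_mem_pow_and_aeval_eq_zero R f I hf
  have h1 : q.eval r ∈ Module.annihilator R M := by
    rw [Module.mem_annihilator]
    intro m
    have h2 : Polynomial.aeval f q = (q.eval r) • (1 : Module.End R M) := by
      have : f = algebraMap R (Module.End R M) r := by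
        rw [Algebra.algebraMap_eq_smul_one]
      rw [this, Polynomial.aeval_algebraMap_apply, Algebra.algebraMap_eq_smul_one]
      simp [Polynomial.aeval_def]
    have h3 := congrArg (fun g : Module.End R M => g m) (h2.symm.trans hq3)
    simpa using h3
  have h4 : q.eval r ∈ Q := hA h1
  rw [Polynomial.eval_eq_sum_range, Finset.sum_range_succ] at h4
  have h5 : ∑ i ∈ Finset.range q.natDegree, q.coeff i * r ^ i ∈ Q := by
    refine Ideal.sum_mem _ (fun i hi => Ideal.mul_mem_right _ _ ?_)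
    have h6 := hq2 i
    refine hI (Ideal.pow_le_self ?_ h6)
    have := Finset.mem_range.1 hi
    omega
  have h7 := (Ideal.add_mem_iff_right Q h5).1 h4
  rw [hq1.coeff_natDegree, one_mul] at h7
  exact hQ.mem_of_pow_mem _ h7

/-- finiteness of `R / I` when the maximal ideal is minimal over `I` -/
theorem finite_of_minimal {R : Type} [CommRing R] [IsLocalRing R] [IsNoetherianRing R]
    (hres : Finite (R ⧸ maximalIdeal R)) {I : Ideal R} (h : maximalIdeal R ∈ I.minimalPrimes) :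
    Finite (R ⧸ I) := by
  have h1 : maximalIdeal R ≤ I.radical := by
    rw [Ideal.radical_eq_sInf]
    refine le_sInf ?_
    rintro Q ⟨hIQ, hQ⟩
    exact h.2 ⟨hQ, hIQ⟩ (IsLocalRing.le_maximalIdeal hQ.ne_top)
  obtain ⟨n, hn⟩ := Ideal.exists_pow_le_of_le_radical_of_fg h1 (IsNoetherian.noetherian _)
  have h2 : Finite (R ⧸ maximalIdeal R ^ n) := Ideal.finite_quotient_pow (IsNoetherian.noetherian _) n
  exact Finite.of_surjective _ (Ideal.Quotient.factor_surjective hn)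

/-! ### `ℤ_p`-modules -/

/-- nonzero elements of `ℤ_p` are powers of `p` times a unit -/
theorem padic_form {p : ℕ} [Fact p.Prime] {α : ℤ_[p]} (h : α ≠ 0) :
    ∃ (n : ℕ) (u : ℤ_[p]ˣ), α = (p : ℤ_[p]) ^ n * u :=
  ⟨α.valuation, PadicInt.unitCoeff h, by
    rw [mul_comm]
    exact PadicInt.unitCoeff_spec h⟩

section

variable {p : ℕ} [Fact p.Prime] {d : ℕ} {R : Type} [CommRing R] [IsLocalRing R]
    [IsNoetherianRing R] [Algebra ℤ_[p] R] {ρ : (Fin d → ℤ_[p]) → R} (H : Hyp p ρ)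

/-- `{q | ρ q - 1 ∈ Q}` -/
def ZZ (H : Hyp p ρ) (Q : Ideal R) : Submodule ℤ_[p] (Fin d → ℤ_[p]) where
  carrier := {q | ρ q - 1 ∈ Q}
  zero_mem' := by
    show ρ 0 - 1 ∈ Q
    rw [H.zero, sub_self]
    exact Q.zero_mem
  add_mem' := by
    intro a b ha hb
    show ρ (a + b) - 1 ∈ Q
    rw [H.add_sub_one]
    exact Ideal.add_mem _ (Ideal.mul_mem_right _ _ ha) hb
  smul_mem' := by
    intro α q hq
    show ρ (α • q) - 1 ∈ Q
    refine (?_ : Ideal.span {ρ q - 1} ≤ Q) (H.smul_sub_one_mem α q)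
    rw [Ideal.span_le, Set.singleton_subset_iff]
    exact hq

theorem mem_ZZ {Q : Ideal R} {q : Fin d → ℤ_[p]} : q ∈ ZZ H Q ↔ ρ q - 1 ∈ Q := Iff.rfl

theorem ZZ_mono {Q Q' : Ideal R} (h : Q ≤ Q') : ZZ H Q ≤ ZZ H Q' := fun _ hq => h hq

/-- in characteristic `p`: `x^(p^n) - 1 ∈ Q` implies `x - 1 ∈ Q` -/
theorem char_p_root {Q : Ideal R} (hQ : Q.IsPrime) (hp : (p : R) ∈ Q) {x : R} (n : ℕ)
    (h : x ^ p ^ n - 1 ∈ Q) : x - 1 ∈ Q := by
  have hpr : p.Prime := Fact.out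
  have h0 : ((p : ℕ) : R ⧸ Q) = 0 := by
    rw [← map_natCast (Ideal.Quotient.mk Q) p]
    exact Ideal.Quotient.eq_zero_iff_mem.2 hp
  have h1 : CharP (R ⧸ Q) p := ringChar.of_eq (CharP.ringChar_of_prime_eq_zero hpr h0)
  have h2 : (Ideal.Quotient.mk Q x - 1) ^ p ^ n = 0 := by
    rw [sub_pow_char_pow, one_pow, ← map_pow, ← map_one (Ideal.Quotient.mk Q), ← map_sub]
    exact Ideal.Quotient.eq_zero_iff_mem.2 h
  have h3 := pow_eq_zero_iff (pow_ne_zero n hpr.ne_zero) |>.1 h2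
  rw [← map_one (Ideal.Quotient.mk Q), ← map_sub] at h3
  exact Ideal.Quotient.eq_zero_iff_mem.1 h3

/-- purity of `Z(Q)` for primes containing `p` -/
theorem pure_ZZ {Q : Ideal R} (hQ : Q.IsPrime) (hp : (p : R) ∈ Q) {α : ℤ_[p]} (hα : α ≠ 0)
    {q : Fin d → ℤ_[p]} (h : α • q ∈ ZZ H Q) : q ∈ ZZ H Q := by
  obtain ⟨n, u, rfl⟩ := padic_form hα
  have h1 : (p : ℤ_[p]) ^ n • q ∈ ZZ H Q := by
    have h2 := (ZZ H Q).smul_mem (↑u⁻¹ : ℤ_[p]) h
    rw [smul_smul] at h2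
    have e : (↑u⁻¹ : ℤ_[p]) * ((p : ℤ_[p]) ^ n * u) = (p : ℤ_[p]) ^ n := by
      rw [mul_left_comm, Units.inv_mul, mul_one]
    rwa [e] at h2
  rw [mem_ZZ, H.p_pow_smul] at h1
  exact char_p_root hQ hp n h1

/-- rank comparison -/
theorem torsion_of_finrank_eq {N1 N2 : Submodule ℤ_[p] (Fin d → ℤ_[p])} (h : N1 ≤ N2)
    (hr : Module.finrank ℤ_[p] N2 ≤ Module.finrank ℤ_[p] N1) {x : Fin d → ℤ_[p]} (hx : x ∈ N2) :
    ∃ s : ℕ, (p : ℤ_[p]) ^ s • x ∈ N1 := by
  have h1 := (Submodule.comap N2.subtype N1).finrank_quotient_add_finrank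
  have h2 : Module.finrank ℤ_[p] (Submodule.comap N2.subtype N1) = Module.finrank ℤ_[p] N1 :=
    (Submodule.comapSubtypeEquivOfLe h).finrank_eq
  have h3 : Module.finrank ℤ_[p] (N2 ⧸ Submodule.comap N2.subtype N1) = 0 := by omega
  rw [Module.finrank_eq_zero_iff] at h3
  obtain ⟨a, ha, hax⟩ := h3 (Submodule.Quotient.mk ⟨x, hx⟩)
  rw [← Submodule.Quotient.mk_smul, Submodule.Quotient.mk_eq_zero, Submodule.mem_comap] at hax
  have h4 : a • x ∈ N1 := hax
  obtain ⟨n, u, rfl⟩ := padic_form ha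
  refine ⟨n, ?_⟩
  have h5 := N1.smul_mem (↑u⁻¹ : ℤ_[p]) h4
  rw [smul_smul] at h5
  have e : (↑u⁻¹ : ℤ_[p]) * ((p : ℤ_[p]) ^ n * u) = (p : ℤ_[p]) ^ n := by
    rw [mul_left_comm, Units.inv_mul, mul_one]
  rwa [e] at h5

/-- avoidance of finitely many pure proper submodules -/
theorem avoid {ι : Type*} (s : Finset ι) (N : ι → Submodule ℤ_[p] (Fin d → ℤ_[p]))
    (h1 : ∀ i ∈ s, N i ≠ ⊤)
    (h2 : ∀ i ∈ s, ∀ (α : ℤ_[p]), α ≠ 0 → ∀ q, α • q ∈ N i → q ∈ N i) :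
    ∃ q, ∀ i ∈ s, q ∉ N i := by
  by_contra hcon
  push Not at hcon
  have hcov : ⋃ i ∈ s, (N i : Set (Fin d → ℤ_[p])) = Set.univ := by
    rw [Set.eq_univ_iff_forall]
    intro q
    obtain ⟨i, hi, hq⟩ := hcon q
    simp only [Set.mem_iUnion]
    exact ⟨i, hi, hq⟩
  obtain ⟨i, hi, hfi⟩ := Submodule.exists_finiteIndex_of_cover hcov
  refine h1 i hi (eq_top_iff.2 (fun q _ => ?_))
  have h3 : (N i).toAddSubgroup.index • q ∈ (N i).toAddSubgroup :=
    AddSubgroup.nsmul_index_mem _ q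
  rw [← Nat.cast_smul_eq_nsmul ℤ_[p]] at h3
  refine h2 i hi _ ?_ q h3
  exact_mod_cast hfi.index_ne_zero

/-! ### The module side -/

section

variable {M : Type*} [AddCommGroup M] [Module R M]

/-- the ideal of elements mapping `M` into `N` -/
def cI (N : Submodule R M) : Ideal R := N.colon Set.univ

theorem mem_cI {N : Submodule R M} {r : R} : r ∈ cI N ↔ ∀ m : M, r • m ∈ N := by
  unfold cI
  rw [Submodule.mem_colon]
  simp

theorem mulM_le_iff {N : Submodule R M} {y : R} : mulM y M ≤ N ↔ y ∈ cI N := by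
  rw [mem_cI]
  unfold mulM
  constructor
  · intro h m
    exact h (Submodule.smul_mem_smul (Ideal.mem_span_singleton_self y) Submodule.mem_top)
  · intro h
    rw [Submodule.smul_le]
    intro r hr m _
    obtain ⟨c, rfl⟩ := Ideal.mem_span_singleton.1 hr
    rw [mul_comm, mul_smul]
    exact N.smul_mem _ (h m)

theorem smul_mem_mulM (y : R) (m : M) : y • m ∈ mulM y M :=
  Submodule.smul_mem_smul (Ideal.mem_span_singleton_self y) Submodule.mem_top

/-- the ideal generated by the `ρ (l i) - 1` -/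
def JJ (ρ : (Fin d → ℤ_[p]) → R) {e : ℕ} (l : Fin e → (Fin d → ℤ_[p])) : Ideal R :=
  Ideal.span (Set.range fun i => ρ (l i) - 1)

theorem sup_eq {e : ℕ} (l : Fin e → (Fin d → ℤ_[p])) (y : R) :
    mulM y M ⊔ subN ρ M l = (Ideal.span {y} ⊔ JJ ρ l) • (⊤ : Submodule R M) := by
  rw [Submodule.sup_smul]
  rfl

/-- FACT A -/
theorem factA [Module.Finite R M] {e : ℕ} {l : Fin e → (Fin d → ℤ_[p])} {Q : Ideal R}
    (hQ : Q.IsPrime) (hA : Module.annihilator R M ≤ Q) (hJ : JJ ρ l ≤ Q) {y : R} (hy : y ∈ Q)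
    {r : R} (hr : r ∈ cI (mulM y M ⊔ subN ρ M l)) : r ∈ Q := by
  rw [mem_cI, sup_eq] at hr
  refine supp_mem hQ hA (sup_le ?_ hJ) hr
  rw [Ideal.span_le, Set.singleton_subset_iff]
  exact hy

theorem factA' [Module.Finite R M] {e : ℕ} {l : Fin e → (Fin d → ℤ_[p])} {Q : Ideal R}
    (hQ : Q.IsPrime) (hA : Module.annihilator R M ≤ Q) (hJ : JJ ρ l ≤ Q)
    {r : R} (hr : r ∈ cI (subN ρ M l)) : r ∈ Q := by
  rw [mem_cI] at hr
  exact supp_mem hQ hA hJ hr

end

/-- minimal primes over `P + (p)` -/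
theorem ZZ_ne_top {P : Ideal R} (hfin : ¬ Module.Finite ℤ_[p] (R ⧸ P)) {Q : Ideal R}
    (hQ : Q ∈ (P ⊔ Ideal.span {(p : R)}).minimalPrimes) : ZZ H Q ≠ ⊤ := by
  intro htop
  have hQp : Q.IsPrime := hQ.isPrime
  have h1 : maximalIdeal R ≤ Q := by
    refine H.gen.trans ?_
    rw [Ideal.span_le, Set.union_subset_iff]
    constructor
    · rw [Set.singleton_subset_iff]
      exact hQ.1.2 (Ideal.mem_sup_right (Ideal.mem_span_singleton_self _))
    · rintro _ ⟨a, rfl⟩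
      have h2 : a ∈ ZZ H Q := by
        rw [htop]
        trivial
      exact h2
  have h2 : Q = maximalIdeal R := le_antisymm (IsLocalRing.le_maximalIdeal hQp.ne_top) h1
  rw [h2] at hQ
  exact hfin (H.fin P (finite_of_minimal H.residue hQ))

theorem exists_min {P : Ideal R} (hP : P.IsPrime) {y : R} (hy : y ∈ maximalIdeal R) :
    ∃ Q, Q ∈ (P ⊔ Ideal.span {y}).minimalPrimes := by
  obtain ⟨Q, hQ, -⟩ := Ideal.exists_minimalPrimes_le (I := P ⊔ Ideal.span {y})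
    (J := maximalIdeal R) (sup_le (IsLocalRing.le_maximalIdeal hP.ne_top) (by
      rw [Ideal.span_le, Set.singleton_subset_iff]
      exact hy))
  exact ⟨Q, hQ⟩

/-- `p` is not in a minimal prime over `P + (y)` containing `ρ g - 1` -/
theorem p_notMem {P : Ideal R} (hP : P.IsPrime) (hpP : (p : R) ∉ P) {g : Fin d → ℤ_[p]}
    (hg : ∀ Q ∈ (P ⊔ Ideal.span {(p : R)}).minimalPrimes, g ∉ ZZ H Q) {y : R} {Q : Ideal R}
    (hQ : Q ∈ (P ⊔ Ideal.span {y}).minimalPrimes) (hgQ : ρ g - 1 ∈ Q) : (p : R) ∉ Q := by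
  intro hpQ
  have hQp : Q.IsPrime := hQ.isPrime
  have hPQ : P ≤ Q := le_sup_left.trans hQ.1.2
  obtain ⟨Pi, hPi, hPiQ⟩ := Ideal.exists_minimalPrimes_le (I := P ⊔ Ideal.span {(p : R)})
    (J := Q) (sup_le hPQ (by
      rw [Ideal.span_le, Set.singleton_subset_iff]
      exact hpQ))
  have hlt : P < Pi := by
    refine lt_of_le_of_ne (le_sup_left.trans hPi.1.2) (fun h => hpP ?_)
    rw [h]
    exact hPi.1.2 (Ideal.mem_sup_right (Ideal.mem_span_singleton_self _))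
  have h1 := krull_between hP hPi.isPrime y hQ hlt hPiQ
  subst h1
  exact hg Pi hPi hgQ

/-- the element `Ψ_n` -/
theorem psi_mul (x : R) (n : ℕ) :
    (∑ i ∈ Finset.range p, x ^ (i * p ^ n)) * (x ^ p ^ n - 1) = x ^ p ^ (n + 1) - 1 := by
  have h := geom_sum_mul (x ^ p ^ n) p
  rw [← pow_mul, ← pow_succ] at h
  rw [← h]
  congr 1
  refine Finset.sum_congr rfl (fun i _ => ?_)
  rw [← pow_mul, mul_comm]

include H in
theorem succ_pow_mem (q : Fin d → ℤ_[p]) (j : ℕ) :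
    ρ ((p : ℤ_[p]) ^ (j + 1) • q) - 1 ∈ Ideal.span {ρ q ^ p - 1} := by
  have h7 := H.smul_sub_one_mem ((p : ℤ_[p]) ^ j) ((p : ℤ_[p]) • q)
  have h8 := H.p_pow_smul q 1
  rw [pow_one, pow_one] at h8
  rw [smul_smul, ← pow_succ, h8] at h7
  exact h7

theorem psi_mem (x : R) (hx : x - 1 ∈ maximalIdeal R) (hp : (p : R) ∈ maximalIdeal R) (n : ℕ) :
    (∑ i ∈ Finset.range p, x ^ (i * p ^ n)) ∈ maximalIdeal R := by
  have h1 : (∑ i ∈ Finset.range p, x ^ (i * p ^ n)) =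
      ∑ i ∈ Finset.range p, (x ^ (i * p ^ n) - 1) + (p : R) := by
    simp [Finset.sum_sub_distrib]
  rw [h1]
  refine Ideal.add_mem _ (Ideal.sum_mem _ (fun i _ => ?_)) hp
  obtain ⟨c, hc⟩ : x - 1 ∣ x ^ (i * p ^ n) - 1 := by simpa using sub_dvd_pow_sub_pow x 1 (i * p ^ n)
  rw [hc]
  exact Ideal.mul_mem_right _ _ hx

end

theorem stmtGood.{u} (h1 : StmtDep) (h2 : StmtPoint) : StmtGood.{u} := by
  intro p _ d R _ _ _ _ ρ H M _ _ _ hex
  have hpr : p.Prime := Fact.out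
  -- a maximal prime
  let S : Set (Ideal R) := {P | P.IsPrime ∧ Module.annihilator R M ≤ P ∧ (p : R) ∉ P ∧
    ¬ Module.Finite ℤ_[p] (R ⧸ P)}
  have hS : S.Nonempty := hex
  have hmx : ∃ P : Ideal R, P ∈ S ∧ ∀ I ∈ S, ¬ P < I :=
    (set_has_maximal_iff_noetherian (R := R) (M := R)).2 inferInstance S hS
  obtain ⟨P, hPS, hPmax⟩ := hmx
  obtain ⟨hP, hA, hpP, hfin⟩ := hPS
  have hmax : ∀ P' : Ideal R, P'.IsPrime → P < P' → (p : R) ∉ P' →
      Module.Finite ℤ_[p] (R ⧸ P') := by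
    intro P' hP' hlt hp'
    by_contra hcon
    exact hPmax P' ⟨hP', hA.trans hlt.le, hp', hcon⟩ hlt
  -- the submodule `L`
  have hLfg : (ZZ H P).FG := IsNoetherian.noetherian _
  obtain ⟨e, l, hl⟩ := Submodule.fg_iff_exists_fin_generating_family.1 hLfg
  have hJP : JJ ρ l ≤ P := by
    unfold JJ
    rw [Ideal.span_le]
    rintro _ ⟨i, rfl⟩
    have h3 : l i ∈ ZZ H P := by
      rw [← hl]
      exact Submodule.subset_span ⟨i, rfl⟩
    exact h3
  have hJL : ∀ q ∈ ZZ H P, ρ q - 1 ∈ JJ ρ l := by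
    intro q hq
    have h3 : ZZ H P ≤ ZZ H (JJ ρ l) := by
      rw [← hl, Submodule.span_le]
      rintro _ ⟨i, rfl⟩
      exact Ideal.subset_span ⟨i, rfl⟩
    exact h3 hq
  -- the submodules `K q`
  let K : (Fin d → ℤ_[p]) → Submodule ℤ_[p] (Fin d → ℤ_[p]) :=
    fun q => ZZ H (cI (mulM (ρ q - 1) M ⊔ subN ρ M l))
  have hK : ∀ q k, k ∈ K q ↔ ρ k - 1 ∈ cI (mulM (ρ q - 1) M ⊔ subN ρ M l) := fun q k => Iff.rfl
  have hKself : ∀ q, q ∈ K q := by
    intro q
    rw [hK, mem_cI]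
    exact fun m => Submodule.mem_sup_left (smul_mem_mulM _ m)
  have hKmono : ∀ (α : ℤ_[p]) (q : Fin d → ℤ_[p]), K (α • q) ≤ K q := by
    intro α q
    refine ZZ_mono H (fun r hr => ?_)
    rw [mem_cI] at hr ⊢
    intro m
    refine (?_ : mulM (ρ (α • q) - 1) M ⊔ subN ρ M l ≤ mulM (ρ q - 1) M ⊔ subN ρ M l) (hr m)
    refine sup_le_sup_right ?_ _
    rw [mulM_le_iff, mem_cI]
    intro m
    obtain ⟨c, hc⟩ := Ideal.mem_span_singleton.1 (H.smul_sub_one_mem α q)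
    rw [hc, mul_smul]
    exact smul_mem_mulM _ _
  -- minimal primes over `P + (p)`
  have hFfin := Ideal.finite_minimalPrimes_of_isNoetherianRing R (P ⊔ Ideal.span {(p : R)})
  have hpQ : ∀ Q ∈ (P ⊔ Ideal.span {(p : R)}).minimalPrimes, (p : R) ∈ Q := fun Q hQ =>
    hQ.1.2 (Ideal.mem_sup_right (Ideal.mem_span_singleton_self _))
  have hpure : ∀ Q ∈ (P ⊔ Ideal.span {(p : R)}).minimalPrimes, ∀ α : ℤ_[p], α ≠ 0 →
      ∀ q, α • q ∈ ZZ H Q → q ∈ ZZ H Q := fun Q hQ α hα q hq =>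
    pure_ZZ H hQ.isPrime (hpQ Q hQ) hα hq
  let Γ : Set (Fin d → ℤ_[p]) := {g | ∀ Q ∈ (P ⊔ Ideal.span {(p : R)}).minimalPrimes, g ∉ ZZ H Q}
  have hΓ : Γ.Nonempty := by
    obtain ⟨q, hq⟩ := avoid hFfin.toFinset (fun Q => ZZ H Q)
      (fun Q hQ => ZZ_ne_top H hfin (hFfin.mem_toFinset.1 hQ))
      (fun Q hQ => hpure Q (hFfin.mem_toFinset.1 hQ))
    exact ⟨q, fun Q hQ => hq Q (hFfin.mem_toFinset.2 hQ)⟩
  obtain ⟨g, hg, hgmin⟩ := WellFounded.has_min
    (InvImage.wf (fun q => Module.finrank ℤ_[p] (K q)) Nat.lt_wfRel.wf) Γ hΓ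
  have hgΓ : ∀ Q ∈ (P ⊔ Ideal.span {(p : R)}).minimalPrimes, g ∉ ZZ H Q := hg
  have hgmin' : ∀ g' ∈ Γ, Module.finrank ℤ_[p] (K g) ≤ Module.finrank ℤ_[p] (K g') := by
    intro g' hg'
    exact not_lt.1 (hgmin g' hg')
  have hp0 : (p : ℤ_[p]) ≠ 0 := by exact_mod_cast hpr.ne_zero
  -- step 3
  have step3 : ∀ k ∈ K g, ∀ m : ℕ, ∃ s : ℕ, (p : ℤ_[p]) ^ s • k ∈ K ((p : ℤ_[p]) ^ m • g) := by
    intro k hk m
    refine torsion_of_finrank_eq (hKmono _ g) (hgmin' _ ?_) hk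
    exact fun Q hQ hcon => hgΓ Q hQ (hpure Q hQ _ (pow_ne_zero m hp0) g hcon)
  obtain ⟨P1, hP1⟩ := exists_min hP H.p_mem
  have hPP1 : P ≤ P1 := le_sup_left.trans hP1.1.2
  have hgL : ∀ α : ℤ_[p], α ≠ 0 → α • g ∉ ZZ H P := fun α hα hcon =>
    hgΓ P1 hP1 (hpure P1 hP1 α hα g (ZZ_mono H hPP1 hcon))
  -- step 4
  choose Q hQ using fun m : ℕ => exists_min hP (psi_mem (ρ g) (H.sub_mem g) H.p_mem m)
  have hQp : ∀ m, (Q m).IsPrime := fun m => (hQ m).isPrime
  have hPQ : ∀ m, P ≤ Q m := fun m => le_sup_left.trans (hQ m).1.2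
  have hψ : ∀ m, (∑ i ∈ Finset.range p, ρ g ^ (i * p ^ m)) ∈ Q m := fun m =>
    (hQ m).1.2 (Ideal.mem_sup_right (Ideal.mem_span_singleton_self _))
  have ha : ∀ m, ρ g ^ p ^ (m + 1) - 1 ∈ Q m := by
    intro m
    rw [← psi_mul]
    exact Ideal.mul_mem_right _ _ (hψ m)
  have hb : ∀ m, (p : R) ∉ Q m := fun m hpQm =>
    p_notMem H hP hpP hgΓ (hQ m) (char_p_root (hQp m) hpQm (m + 1) (ha m)) hpQm
  have hc : ∀ m, P < Q m := by
    intro m
    refine lt_of_le_of_ne (hPQ m) (fun hcon => ?_)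
    refine hgL _ (pow_ne_zero (m + 1) hp0) ?_
    rw [mem_ZZ, H.p_pow_smul]
    have h3 := ha m
    rw [← hcon] at h3
    exact h3
  choose φ hker hnorm using fun m => h2 p R (Q m) (hQp m) (hb m) (hmax _ (hQp m) (hc m) (hb m))
  have hφ0 : ∀ m r, φ m r = 0 ↔ r ∈ Q m := by
    intro m r
    rw [← hker m, RingHom.mem_ker]
  have hφ1 : ∀ m r, φ m r = 1 ↔ r - 1 ∈ Q m := by
    intro m r
    rw [← hφ0, map_sub, map_one, sub_eq_zero]
  have hprim : ∀ m, IsPrimitiveRoot (φ m (ρ g)) (p ^ (m + 1)) := by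
    intro m
    have h3 : φ m (ρ g) ^ p ^ (m + 1) = 1 := by
      rw [← map_pow, hφ1]
      exact ha m
    have h4 : ¬ φ m (ρ g) ^ p ^ m = 1 := by
      intro h5
      apply hb m
      have h6 := (hφ0 m _).2 (hψ m)
      rw [map_sum] at h6
      have h7 : ∀ i ∈ Finset.range p, φ m (ρ g ^ (i * p ^ m)) = 1 := by
        intro i _
        rw [map_pow, mul_comm, pow_mul, h5, one_pow]
      rw [Finset.sum_congr rfl h7, Finset.sum_const, Finset.card_range, nsmul_eq_mul, mul_one] at h6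
      rw [← hφ0, map_natCast]
      exact h6
    rw [← orderOf_eq_prime_pow h4 h3]
    exact IsPrimitiveRoot.orderOf _
  have htors : ∀ k ∈ K g, ∀ m, ∃ s : ℕ, φ m (ρ k) ^ p ^ s = 1 := by
    intro k hk m
    obtain ⟨s, hs⟩ := step3 k hk (m + 1)
    refine ⟨s, ?_⟩
    rw [← map_pow, hφ1, ← H.p_pow_smul]
    rw [hK] at hs
    refine factA (hQp m) (hA.trans (hPQ m)) (hJP.trans (hPQ m)) ?_ hs
    rw [H.p_pow_smul]
    exact ha m
  -- step 5
  have step5 : ∀ k ∈ K g, ∃ (s : ℕ) (α : ℤ_[p]), (p : ℤ_[p]) ^ s • k - α • g ∈ ZZ H P := by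
    intro k hk
    obtain ⟨s, α, h3 | h3⟩ := h1 p d R ρ H P hP hpP hfin hmax φ
      (fun m r hr => (hφ0 m r).2 (hPQ m hr)) hnorm g k hprim (htors k hk)
    · exact ⟨s, α, h3⟩
    · have h4 : (p : ℤ_[p]) ^ s • g - α • k ∈ ZZ H P := h3
      have hα : α ≠ 0 := by
        rintro rfl
        rw [zero_smul, sub_zero] at h4
        exact hgL _ (pow_ne_zero s hp0) h4
      obtain ⟨i, u, rfl⟩ := padic_form hα
      refine ⟨i, (↑u⁻¹ : ℤ_[p]) * (p : ℤ_[p]) ^ s, ?_⟩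
      have h5 := (ZZ H P).smul_mem (-(↑u⁻¹ : ℤ_[p])) h4
      have e2 : (-(↑u⁻¹ : ℤ_[p])) • ((p : ℤ_[p]) ^ s • g - ((p : ℤ_[p]) ^ i * u) • k) =
          (p : ℤ_[p]) ^ i • k - ((↑u⁻¹ : ℤ_[p]) * (p : ℤ_[p]) ^ s) • g := by
        rw [smul_sub, smul_smul, smul_smul]
        have e3 : (-(↑u⁻¹ : ℤ_[p])) * ((p : ℤ_[p]) ^ i * u) = -(p : ℤ_[p]) ^ i := by
          rw [neg_mul, mul_left_comm, Units.inv_mul, mul_one]
        rw [e3, neg_mul, neg_smul, neg_smul]
        abel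
      rwa [e2] at h5
  -- step 6
  have step6' : ∀ t ∈ K g, (p : ℤ_[p]) • t ∈ ZZ H P → t ∈ ZZ H P := by
    intro t ht hpt
    by_contra hcon
    have h3 : (∑ i ∈ Finset.range p, ρ t ^ i) ∈ P := by
      have h4 : ρ t ^ p - 1 ∈ P := by
        have h5 := H.p_pow_smul t 1
        rw [pow_one, pow_one] at h5
        rw [← h5]
        exact hpt
      rw [← geom_sum_mul] at h4
      rcases hP.mem_or_mem h4 with h5 | h5
      · exact h5
      · exact absurd h5 hcon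
    obtain ⟨Q0, hQ0⟩ := exists_min hP (H.sub_mem g)
    have hgQ0 : ρ g - 1 ∈ Q0 := hQ0.1.2 (Ideal.mem_sup_right (Ideal.mem_span_singleton_self _))
    have hPQ0 : P ≤ Q0 := le_sup_left.trans hQ0.1.2
    have hpQ0 : (p : R) ∉ Q0 := p_notMem H hP hpP hgΓ hQ0 hgQ0
    have htQ0 : ρ t - 1 ∈ Q0 :=
      factA hQ0.isPrime (hA.trans hPQ0) (hJP.trans hPQ0) hgQ0 ((hK g t).1 ht)
    apply hpQ0
    have h4 : (p : R) = (∑ i ∈ Finset.range p, ρ t ^ i) -
        ∑ i ∈ Finset.range p, (ρ t ^ i - 1) := by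
      simp [Finset.sum_sub_distrib]
    rw [h4]
    refine Ideal.sub_mem _ (hPQ0 h3) (Ideal.sum_mem _ (fun i _ => ?_))
    obtain ⟨c, hc⟩ : ρ t - 1 ∣ ρ t ^ i - 1 := by simpa using sub_dvd_pow_sub_pow (ρ t) 1 i
    rw [hc]
    exact Ideal.mul_mem_right _ _ htQ0
  have step6 : ∀ (s : ℕ), ∀ t ∈ K g, (p : ℤ_[p]) ^ s • t ∈ ZZ H P → t ∈ ZZ H P := by
    intro s
    induction s with
    | zero => intro t _ h3; simpa using h3
    | succ s ih =>
      intro t ht h3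
      refine ih t ht (step6' _ ((K g).smul_mem _ ht) ?_)
      rwa [smul_smul, ← pow_succ']
  -- step 7
  have step7 : ∀ k ∈ K g, ∃ α : ℤ_[p], k - α • g ∈ ZZ H P := by
    intro k hk
    obtain ⟨s, α, h3⟩ := step5 k hk
    by_cases hα : α = 0
    · subst hα
      rw [zero_smul, sub_zero] at h3
      exact ⟨0, by rw [zero_smul, sub_zero]; exact step6 s k hk h3⟩
    obtain ⟨i, u, rfl⟩ := padic_form hα
    rcases le_or_gt s i with hsi | hsi
    · obtain ⟨j, rfl⟩ := Nat.exists_eq_add_of_le hsi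
      refine ⟨(p : ℤ_[p]) ^ j * u, step6 s _ ((K g).sub_mem hk ((K g).smul_mem _ (hKself g))) ?_⟩
      rw [smul_sub, smul_smul]
      rwa [pow_add, mul_assoc] at h3
    · obtain ⟨j, rfl⟩ := Nat.exists_eq_add_of_lt hsi
      -- contradiction
      exfalso
      have ht' : (p : ℤ_[p]) ^ (j + 1) • k - (u : ℤ_[p]) • g ∈ ZZ H P := by
        refine step6 i _ ((K g).sub_mem ((K g).smul_mem _ hk) ((K g).smul_mem _ (hKself g))) ?_
        rw [smul_sub, smul_smul, smul_smul, ← pow_add]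
        exact h3
      set k' : Fin d → ℤ_[p] := (↑u⁻¹ : ℤ_[p]) • k with hk'
      have hk'K : k' ∈ K g := (K g).smul_mem _ hk
      set t' : Fin d → ℤ_[p] := g - (p : ℤ_[p]) ^ (j + 1) • k' with ht'd
      have ht'L : t' ∈ ZZ H P := by
        have h5 := (ZZ H P).smul_mem (-(↑u⁻¹ : ℤ_[p])) ht'
        have e2 : (-(↑u⁻¹ : ℤ_[p])) • ((p : ℤ_[p]) ^ (j + 1) • k - (u : ℤ_[p]) • g) = t' := by
          rw [ht'd, hk', smul_sub, smul_smul, smul_smul, smul_smul]
          have e3 : (-(↑u⁻¹ : ℤ_[p])) * (u : ℤ_[p]) = -1 := by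
            rw [neg_mul, Units.inv_mul]
          rw [e3, neg_mul, neg_smul, neg_smul, one_smul, mul_comm ((p : ℤ_[p]) ^ (j + 1))]
          abel
        rwa [e2] at h5
      have hgt : g = (p : ℤ_[p]) ^ (j + 1) • k' + t' := by
        rw [ht'd]
        abel
      -- `ρ g - 1` in terms of `ρ k' - 1`
      obtain ⟨m0, hm0, hm0e⟩ := H.pow_p_sub_one_mem (H.sub_mem k')
      have h6 : ρ ((p : ℤ_[p]) ^ (j + 1) • k') - 1 ∈ Ideal.span {ρ k' ^ p - 1} :=
        succ_pow_mem H k' j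
      obtain ⟨c, hc⟩ := Ideal.mem_span_singleton.1 h6
      have h9 : ρ g - 1 = (m0 * (c * ρ t')) * (ρ k' - 1) + (ρ t' - 1) := by
        conv_lhs => rw [hgt]
        rw [H.add_sub_one, hc, hm0e]
        ring
      -- Nakayama
      have h10 : mulM (ρ k' - 1) M ≤ subN ρ M l := by
        refine Submodule.le_of_le_smul_of_le_jacobson_bot (I := maximalIdeal R) ?_
          (IsLocalRing.maximalIdeal_le_jacobson _) ?_
        · exact Submodule.FG.smul (Submodule.fg_span_singleton _) Module.Finite.fg_top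
        · have h11 : mulM (ρ k' - 1) M ≤ mulM (ρ g - 1) M ⊔ subN ρ M l :=
            mulM_le_iff.2 ((hK g k').1 hk'K)
          refine h11.trans (sup_le ?_ le_sup_left)
          rw [mulM_le_iff, mem_cI]
          intro m
          rw [h9, add_smul]
          refine Submodule.add_mem _ (Submodule.mem_sup_right ?_) (Submodule.mem_sup_left ?_)
          · rw [mul_smul]
            refine Submodule.smul_mem_smul (Ideal.mul_mem_right _ _ hm0) (smul_mem_mulM _ m)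
          · exact Submodule.smul_mem_smul (hJL _ ht'L) Submodule.mem_top
      have h12 : ρ k' - 1 ∈ P := factA' hP hA hJP (mulM_le_iff.1 h10)
      have h13 : g ∈ ZZ H P := by
        rw [hgt]
        exact (ZZ H P).add_mem ((ZZ H P).smul_mem _ h12) ht'L
      refine hgL 1 one_ne_zero ?_
      rwa [one_smul]
  -- step 8
  refine ⟨e, l, g, ?_, ?_⟩
  · intro h hh
    have hhK : h ∈ K g := (hK g h).2 (mulM_le_iff.1 hh)
    obtain ⟨α, hα⟩ := step7 h hhK
    refine ⟨α, fun m => ?_⟩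
    have e2 : ρ h - ρ (α • g) = ρ (α • g) * (ρ (h - α • g) - 1) := by
      rw [mul_sub, ← H.add, add_sub_cancel, mul_one]
    refine Submodule.smul_mem_smul ?_ Submodule.mem_top
    rw [e2]
    exact Ideal.mul_mem_left _ _ (hJL _ hα)
  · intro n
    by_contra hcon
    push Not at hcon
    obtain ⟨k, hk⟩ : ∃ k : ℕ, ∀ m : M, ((p : R) ^ k) • m ∈
        mulM (∑ i ∈ Finset.range p, ρ g ^ (i * p ^ n)) M ⊔ subN ρ M l := by
      obtain ⟨T, hT⟩ := (Module.Finite.fg_top : (⊤ : Submodule R M).FG)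
      choose f hf using hcon
      refine ⟨T.sup f, fun m => ?_⟩
      have hm : m ∈ Submodule.span R (T : Set M) := by
        rw [hT]
        trivial
      induction hm using Submodule.span_induction with
      | mem x hx =>
        have h3 : f x ≤ T.sup f := Finset.le_sup hx
        rw [← Nat.sub_add_cancel h3, pow_add, mul_smul]
        exact Submodule.smul_mem _ _ (hf x)
      | zero => rw [smul_zero]; exact Submodule.zero_mem _
      | add x y _ _ hx hy => rw [smul_add]; exact Submodule.add_mem _ hx hy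
      | smul a x _ hx => rw [smul_comm]; exact Submodule.smul_mem _ _ hx
    have h3 : (p : R) ^ k ∈ Q n :=
      factA (hQp n) (hA.trans (hPQ n)) (hJP.trans (hPQ n)) (hψ n) (mem_cI.2 hk)
    exact hb n ((hQp n).mem_of_pow_mem _ h3)

end Pool.Agent.Helper22.ProP
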